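import Mathlib
import Pool.Agent.Helper99.SZ.Stmts5
import Pool.Agent.Helper3.SZ.AM3

set_option autoImplicit false

namespace Pool.Helper99.SZ

open NumberField

theorem st_HAM (h1 : ST_HPN) (h2 : ST_PMU) (h3 : ST_LIA) : ST_HAM := by
  intro n D hD L _ _ hfr φ g0 g nrm G Z X U ℓ Θ Ti c ω lam0 hG hZ hLD hlam hg hsz hTi hTi2 hX
    hℓ hΘ hU hZU hcnt
  obtain ⟨a1, a2, a3, a4, a5, a6⟩ := am3_num n D hD G X U ℓ Θ _ _ hG hX hℓ hΘ hU rfl rfl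
  by_cases hT' : 2 * (⌈4096 * ((n : ℝ) + 1) * D * U / G⌉₊ : ℝ) *
      ((⌈4096 * ((n : ℝ) + 1) ^ 2 * D * ℓ / G⌉₊ + 32 * (n + 1) : ℕ) : ℝ) * G ≤ Ti
  · have hV := h1 n D hD L hfr φ g0 g nrm G Z U ℓ Ti _ _ c ω lam0 hG hZ hLD hlam hg hsz hTi2
      a1 hℓ hZU a2 a3 a4 hT'
    have hle : nrm (1, 0) ≤ U := by
      by_contra hcon
      exact h2 n D hD L g0 g nrm G Z X U ℓ Θ _ _ hG hLD hX hℓ hΘ hU rfl rfl hcnt
        (not_le.mp hcon) hV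
    have hli := h3 n D L hfr φ g0 g nrm G Z Ti lam0 hLD hlam hTi hTi2
    have : 3 * (D : ℝ) * nrm (1, 0) ≤ 3 * D * U := mul_le_mul_of_nonneg_left hle (by positivity)
    linarith
  · exact le_trans (not_le.mp hT').le a6

end Pool.Helper99.SZ
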