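import Mathlib
import Pool.Agent.Helper99.SZ.Stmts5

set_option autoImplicit false

namespace Pool.Helper99.SZ

theorem st_HCL : ST_HCL := by
  intro C hC
  have h344 : (1 : ℝ) ≤ 217 * C := by linarith
  have hl : 0 ≤ Real.log (217 * C) := Real.log_nonneg h344
  refine ⟨C * (2 + 2 * Real.log (217 * C)) ^ 3, ?_, ?_⟩
  · have h1 : (1 : ℝ) ≤ (2 + 2 * Real.log (217 * C)) ^ 3 := one_le_pow₀ (by linarith)
    exact one_le_mul_of_one_le_of_one_le hC h1
  · intro V r hV hr h
    have hV0 : 0 < V := by linarith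
    have hC0 : 0 < C := by linarith
    have hCV : 1 ≤ C * V := one_le_mul_of_one_le_of_one_le hC hV
    set s : ℝ := (1 + r) ^ ((1 : ℝ) / 6) with hs
    have hs0 : 0 < s := Real.rpow_pos_of_pos (by linarith) _
    have hs6 : s ^ 6 = 1 + r := by
      rw [hs, ← Real.rpow_natCast, ← Real.rpow_mul (by linarith)]
      norm_num
    have hs1 : 1 ≤ s := by
      rw [hs]
      exact Real.one_le_rpow (by linarith) (by norm_num)
    have hlog : Real.log (1 + r) = 6 * Real.log s := by
      rw [← hs6, Real.log_pow]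
      norm_num
    have hlog2 : Real.log s ≤ s - 1 := Real.log_le_sub_one_of_pos hs0
    have h5 : 1 + Real.log (1 + r) ≤ 6 * s := by rw [hlog]; linarith
    have h50 : 0 ≤ 1 + Real.log (1 + r) := by
      have := Real.log_nonneg (show (1 : ℝ) ≤ 1 + r by linarith)
      linarith
    have h6 : (1 + Real.log (1 + r)) ^ 3 ≤ (6 * s) ^ 3 := pow_le_pow_left₀ h50 h5 3
    have h7 : r ≤ C * V * (6 * s) ^ 3 := h.trans (mul_le_mul_of_nonneg_left h6 (by positivity))
    have hs3 : 1 ≤ s ^ 3 := one_le_pow₀ hs1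
    have h8 : 1 ≤ C * V * s ^ 3 := one_le_mul_of_one_le_of_one_le hCV hs3
    have h9 : s ^ 3 * s ^ 3 ≤ 217 * (C * V) * s ^ 3 := by
      have e1 : s ^ 3 * s ^ 3 = s ^ 6 := by ring
      have e2 : C * V * (6 * s) ^ 3 = 216 * (C * V * s ^ 3) := by ring
      rw [e1, hs6]
      rw [e2] at h7
      have e3 : 217 * (C * V) * s ^ 3 = 217 * (C * V * s ^ 3) := by ring
      rw [e3]
      linarith
    have h10 : s ^ 3 ≤ 217 * (C * V) := le_of_mul_le_mul_right h9 (by positivity)
    have h11 : Real.log (1 + r) ≤ 2 * Real.log (217 * C) + 2 * Real.log V := by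
      have e1 : Real.log (1 + r) = 2 * Real.log (s ^ 3) := by
        rw [hlog, Real.log_pow]; push_cast; ring
      have e2 : Real.log (s ^ 3) ≤ Real.log (217 * (C * V)) :=
        Real.log_le_log (by positivity) h10
      have e3 : Real.log (217 * (C * V)) = Real.log (217 * C) + Real.log V := by
        rw [← mul_assoc, Real.log_mul (by positivity) (by positivity)]
      rw [e1]
      linarith
    have hlV : 0 ≤ Real.log V := Real.log_nonneg hV
    have h12 : 1 + Real.log (1 + r) ≤ (2 + 2 * Real.log (217 * C)) * (1 + Real.log V) := by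
      have e1 : 0 ≤ Real.log (217 * C) * Real.log V := mul_nonneg hl hlV
      have e2 : (2 + 2 * Real.log (217 * C)) * (1 + Real.log V) =
        2 + 2 * Real.log (217 * C) + 2 * Real.log V + 2 * (Real.log (217 * C) * Real.log V) := by
        ring
      rw [e2]
      linarith
    have h13 : (1 + Real.log (1 + r)) ^ 3 ≤ ((2 + 2 * Real.log (217 * C)) * (1 + Real.log V)) ^ 3 :=
      pow_le_pow_left₀ h50 h12 3
    calc r ≤ C * V * (1 + Real.log (1 + r)) ^ 3 := h
      _ ≤ C * V * ((2 + 2 * Real.log (217 * C)) * (1 + Real.log V)) ^ 3 :=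
        mul_le_mul_of_nonneg_left h13 (by positivity)
      _ = C * (2 + 2 * Real.log (217 * C)) ^ 3 * V * (1 + Real.log V) ^ 3 := by ring

end Pool.Helper99.SZ
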