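import Pool.Agent.Helper99.SZ.Stmts3

/-! Module HTA. -/

set_option autoImplicit false

namespace Pool.Helper99.SZ

open NumberField

theorem st_HTA (h1 : ST_AM3) : ST_HTA := by
  intro n D hD L _ _ hfr φ g0 g nrm G Ti c ω lam0 hG1 hlam hc hnrm hTi hl d z hz
    Z X U ℓ Θ hZ hGX hℓ hΘ hU hlog hLD hcount
  refine h1 d D hD L hfr φ g0 (fun i => ∏ j, g j ^ (z i j))
    (fun a => nrm (a.1, ∑ i, a.2 i • z i)) G Z X U ℓ Θ Ti (fun i => ∑ j, (z i j : ℝ) * c j) ω lam0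
    hG1 hZ hLD hlam ?_ ?_ hTi hl hGX hℓ hΘ hU hlog hcount
  · intro i
    have e1 : ((∑ j, (z i j : ℝ) * c j : ℝ) : ℂ) * ω = ∑ j, (z i j : ℂ) * ((c j : ℂ) * ω) := by
      push_cast
      rw [Finset.sum_mul]
      exact Finset.sum_congr rfl (fun j _ => by ring)
    show Complex.exp (((∑ j, (z i j : ℝ) * c j : ℝ) : ℂ) * ω) = φ (∏ j, g j ^ (z i j))
    rw [e1, Complex.exp_sum, map_prod]
    refine Finset.prod_congr rfl (fun j _ => ?_)
    rw [Complex.exp_int_mul, hc j, map_zpow₀]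
  · intro a
    have h := hnrm (a.1, ∑ i, a.2 i • z i)
    have e2 : (∑ i, (∑ j, (z i j : ℝ) * c j) * (a.2 i : ℝ) : ℝ) =
        ∑ j, c j * (((∑ i, a.2 i • z i) j : ℤ) : ℝ) := by
      have e3 : ∀ j, (((∑ i, a.2 i • z i) j : ℤ) : ℝ) = ∑ i, (a.2 i : ℝ) * (z i j : ℝ) := by
        intro j
        rw [Finset.sum_apply]
        push_cast
        exact Finset.sum_congr rfl (fun i _ => by simp)
      simp_rw [e3, Finset.sum_mul, Finset.mul_sum]
      rw [Finset.sum_comm]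
      refine Finset.sum_congr rfl (fun j _ => Finset.sum_congr rfl (fun i _ => by ring))
    show ‖((∑ i, (∑ j, (z i j : ℝ) * c j) * (a.2 i : ℝ) : ℝ) : ℂ) * ω‖ * Real.exp G ≤
      nrm (a.1, ∑ i, a.2 i • z i)
    rw [e2]
    exact h

end Pool.Helper99.SZ
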