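import Pool.Agent.Helper99.SZ.Stmts3

/-! Module HTP. -/

set_option autoImplicit false

namespace Pool.Helper99.SZ

open NumberField

theorem st_HTP (h1 : ST_PM3) (h2 : ST_DVB) : ST_HTP := by
  intro n D hD L _ _ hfr P hP hP0 p hp hpP jj T g0 g nrm G hjj hG1 hG hDv hg hOD d z hz
    Z X U ℓ Θ hZ hGX hℓ hΘ hU hlog hLD hcount
  refine h1 d D hD L hfr P hP hP0 p hp hpP jj T g0 (fun i => ∏ j, g j ^ (z i j))
    (fun a => nrm (a.1, ∑ i, a.2 i • z i)) G Z X U ℓ Θ hjj hG1 hZ hG hLD hDv ?_ (hOD d z)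
    hGX hℓ hΘ hU hlog hcount
  intro i
  obtain ⟨h0, -, -, -, -, -, h6, h7, -⟩ := h2 L P hP hP0
  have key : ∀ s : Finset (Fin n), Dv P jj ((∏ j ∈ s, g j ^ (z i j)) - 1) := by
    intro s
    classical
    induction s using Finset.induction_on with
    | empty =>
      refine ⟨0, 1, fun h => hP.ne_top ((Ideal.eq_top_iff_one _).2 h), Submodule.zero_mem _, ?_⟩
      simp
    | insert a s ha ih =>
      rw [Finset.prod_insert ha]
      exact h7 jj _ _ hjj (h6 jj _ _ hjj (hg a)) ih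
  exact key Finset.univ

end Pool.Helper99.SZ
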