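import Pool.Agent.Helper99.SZ.Stmts3

/-! Module LIA. -/

set_option autoImplicit false

namespace Pool.Helper99.SZ

open NumberField

theorem st_LIA (h1 : BK.ST_LIOU) : ST_LIA := by
  intro n D L _ _ hfr φ g0 g nrm G Z Ti lam0 hLD hlam hTi hl
  obtain ⟨q, hq, hqe, hqi⟩ := hLD.den (1, 0)
  have hg : g0 ^ ((1, 0) : ℤ × (Fin n → ℤ)).1 *
      ∏ i, g i ^ (((1, 0) : ℤ × (Fin n → ℤ)).2 i) = g0 := by simp
  rw [hg] at hqi
  have hν1 : (1 : ℝ) ≤ nrm (1, 0) := by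
    have h := hLD.co0 (1, 0)
    simpa using h
  have hz : g0 - 1 ≠ 0 := by
    intro h
    have h' := hLD.tor 1 one_ne_zero
    rw [zpow_one] at h'
    exact h' (sub_eq_zero.1 h)
  have hint : IsIntegral ℤ ((q : L) * (g0 - 1)) := by
    rw [mul_sub, mul_one]
    exact hqi.sub (isIntegral_natCast q)
  have hM : ∀ τ : L →+* ℂ, ‖τ (g0 - 1)‖ ≤ 2 * Real.exp (nrm (1, 0)) := by
    intro τ
    have h := hLD.conj (1, 0) τ
    rw [hg] at h
    rw [map_sub, map_one]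
    have h2 : (1 : ℝ) ≤ Real.exp (nrm (1, 0)) := Real.one_le_exp (by linarith)
    calc ‖τ g0 - 1‖ ≤ ‖τ g0‖ + ‖(1 : ℂ)‖ := norm_sub_le _ _
      _ ≤ Real.exp (nrm (1, 0)) + Real.exp (nrm (1, 0)) := by
        rw [norm_one]; linarith
      _ = 2 * Real.exp (nrm (1, 0)) := by ring
  have hM1 : (1 : ℝ) ≤ 2 * Real.exp (nrm (1, 0)) := by
    have h2 : (1 : ℝ) ≤ Real.exp (nrm (1, 0)) := Real.one_le_exp (by linarith)
    linarith
  have hL := h1 L φ (g0 - 1) hz q hq hint _ hM1 hM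
  have hl1 : ‖lam0‖ ≤ 1 := le_trans hl (Real.exp_le_one_iff.2 (by linarith))
  have hφ : ‖φ (g0 - 1)‖ ≤ 2 * Real.exp (-Ti) := by
    rw [map_sub, map_one, ← hlam]
    calc ‖Complex.exp lam0 - 1‖ ≤ 2 * ‖lam0‖ := Complex.norm_exp_sub_one_le hl1
      _ ≤ 2 * Real.exp (-Ti) := by linarith
  obtain ⟨d, hd⟩ : ∃ d : ℕ, Module.finrank ℚ L = d + 1 :=
    ⟨Module.finrank ℚ L - 1, (Nat.succ_pred_eq_of_pos Module.finrank_pos).symm⟩
  rw [hd] at hL hfr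
  rw [Nat.add_sub_cancel] at hL
  have hν0 : (0 : ℝ) ≤ nrm (1, 0) := by linarith
  have h5 : (1 : ℝ) ≤ (2 * Real.exp (-Ti)) * (Real.exp (nrm (1, 0)) ^ (d + 1) *
      (2 * Real.exp (nrm (1, 0))) ^ d) := by
    refine hL.trans ?_
    gcongr
  have h6 : (2 * Real.exp (-Ti)) * (Real.exp (nrm (1, 0)) ^ (d + 1) *
      (2 * Real.exp (nrm (1, 0))) ^ d) =
      2 ^ (d + 1) * Real.exp (-Ti + (2 * (d : ℝ) + 1) * nrm (1, 0)) := by
    rw [mul_pow, ← Real.exp_nat_mul, ← Real.exp_nat_mul, Real.exp_add, pow_succ,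
      show (2 * (d : ℝ) + 1) * nrm (1, 0) = ((d + 1 : ℕ) : ℝ) * nrm (1, 0) + (d : ℝ) * nrm (1, 0) by
        push_cast; ring, Real.exp_add]
    ring
  rw [h6] at h5
  have h7 : (2 : ℝ) ^ (d + 1) ≤ Real.exp ((d : ℝ) + 1) := by
    have : (2 : ℝ) ≤ Real.exp 1 := by
      have := Real.add_one_le_exp (1 : ℝ)
      linarith
    calc (2 : ℝ) ^ (d + 1) ≤ Real.exp 1 ^ (d + 1) := by gcongr
      _ = Real.exp ((d : ℝ) + 1) := by
        rw [← Real.exp_nat_mul]; push_cast; ring_nf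
  have h8 : (1 : ℝ) ≤ Real.exp (((d : ℝ) + 1) + (-Ti + (2 * (d : ℝ) + 1) * nrm (1, 0))) := by
    rw [Real.exp_add]
    exact h5.trans (mul_le_mul_of_nonneg_right h7 (Real.exp_pos _).le)
  have h9 := Real.one_le_exp_iff.1 h8
  have hd0 : (0 : ℝ) ≤ (d : ℝ) := Nat.cast_nonneg d
  have hDd : (d : ℝ) + 1 ≤ (D : ℝ) := by exact_mod_cast hfr
  have h10 : Ti ≤ 3 * ((d : ℝ) + 1) * nrm (1, 0) := by nlinarith
  refine h10.trans ?_
  gcongr

end Pool.Helper99.SZ
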