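import Pool.Agent.Helper99.SZ.Stmts

/-!
# The discriminant of an elliptic curve: comparison of two conductors
-/

set_option autoImplicit false

namespace Pool.Helper99.SZ

theorem st_NNC : ST_NNC := by
  intro W hD
  have hD0 : W.Δ.natAbs ≠ 0 := Int.natAbs_ne_zero.2 hD
  have hd : (-(1728 * W.Δ)).natAbs = 1728 * W.Δ.natAbs := by
    rw [Int.natAbs_neg, Int.natAbs_mul]
    rfl
  have h1728 : (1728 : ℕ) = 2 ^ 6 * 3 ^ 3 := by norm_num
  have hpf : (1728 * W.Δ.natAbs).primeFactors = W.Δ.natAbs.primeFactors ∪ {2, 3} := by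
    rw [Nat.primeFactors_mul (by norm_num) hD0, Finset.union_comm]
    congr 1
    rw [h1728, Nat.primeFactors_mul (by norm_num) (by norm_num),
      Nat.primeFactors_prime_pow (by norm_num) Nat.prime_two,
      Nat.primeFactors_prime_pow (by norm_num) Nat.prime_three]
    rfl
  have hfac : ∀ p, p ≠ 2 → p ≠ 3 →
      (1728 * W.Δ.natAbs).factorization p = W.Δ.natAbs.factorization p := by
    intro p h2 h3
    rw [Nat.factorization_mul (by norm_num) hD0, Finsupp.add_apply, h1728,
      Nat.factorization_mul (by norm_num) (by norm_num), Finsupp.add_apply,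
      Nat.Prime.factorization_pow Nat.prime_two, Nat.Prime.factorization_pow Nat.prime_three,
      Finsupp.single_eq_of_ne (by omega), Finsupp.single_eq_of_ne (by omega)]
    simp
  set f : ℕ → ℕ := fun p => if (p : ℤ) ∣ W.c₄ then p ^ 2 else
    p ^ ((1728 * W.Δ.natAbs).factorization p % 2) with hf
  set g : ℕ → ℕ := fun p => if (p : ℤ) ∣ W.c₄ then p ^ 2 else
    p ^ (W.Δ.natAbs.factorization p % 2) with hg
  have hNN : BK.NN W.c₄ (-(1728 * W.Δ)) = ∏ p ∈ W.Δ.natAbs.primeFactors ∪ {2, 3}, f p := by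
    unfold BK.NN
    rw [hd, hpf]
  have hcond : cond W = ∏ p ∈ W.Δ.natAbs.primeFactors, g p := rfl
  rw [hNN, hcond]
  have hsub : ({2, 3} : Finset ℕ) ⊆ W.Δ.natAbs.primeFactors ∪ {2, 3} := Finset.subset_union_right
  rw [← Finset.prod_sdiff hsub]
  have hle : ∀ p, 0 < p → f p ≤ p ^ 2 := by
    intro p hp
    simp only [hf]
    split_ifs
    · exact le_rfl
    · apply Nat.pow_le_pow_right hp
      have := Nat.mod_lt ((1728 * W.Δ.natAbs).factorization p) (by norm_num : 0 < 2)
      omega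
  have h23 : ∏ p ∈ ({2, 3} : Finset ℕ), f p ≤ 36 := by
    rw [Finset.prod_pair (by norm_num)]
    have h2 := hle 2 (by norm_num)
    have h3 := hle 3 (by norm_num)
    calc f 2 * f 3 ≤ 2 ^ 2 * 3 ^ 2 := Nat.mul_le_mul h2 h3
      _ = 36 := by norm_num
  have hrest : ∏ p ∈ (W.Δ.natAbs.primeFactors ∪ {2, 3}) \ {2, 3}, f p ≤
      ∏ p ∈ W.Δ.natAbs.primeFactors, g p := by
    have h1 : ∏ p ∈ (W.Δ.natAbs.primeFactors ∪ {2, 3}) \ {2, 3}, f p =
        ∏ p ∈ (W.Δ.natAbs.primeFactors ∪ {2, 3}) \ {2, 3}, g p := by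
      apply Finset.prod_congr rfl
      intro p hp
      have hp' := (Finset.mem_sdiff.1 hp).2
      simp only [Finset.mem_insert, Finset.mem_singleton, not_or] at hp'
      simp only [hf, hg]
      rw [hfac p hp'.1 hp'.2]
    rw [h1]
    apply Finset.prod_le_prod_of_subset_of_one_le'
    · intro p hp
      obtain ⟨h3, h4⟩ := Finset.mem_sdiff.1 hp
      rcases Finset.mem_union.1 h3 with h5 | h5
      · exact h5
      · exact absurd h5 h4
    · intro p hp _
      have hpos := (Nat.prime_of_mem_primeFactors hp).pos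
      simp only [hg]
      split_ifs
      · exact Nat.one_le_pow _ _ hpos
      · exact Nat.one_le_pow _ _ hpos
  calc _ ≤ (∏ p ∈ W.Δ.natAbs.primeFactors, g p) * 36 := Nat.mul_le_mul hrest h23
    _ = _ := mul_comm _ _

end Pool.Helper99.SZ
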