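import Pool.Agent.Helper99.SZ.Stmts4
import Pool.Agent.Helper39.SZ.OD3

set_option autoImplicit false

namespace Pool.Helper99.SZ

open NumberField

theorem rod_int (x : 𝓞 ℚ) : ∃ n : ℤ, x = (n : 𝓞 ℚ) := by
  refine ⟨Rat.ringOfIntegersEquiv x, ?_⟩
  apply Rat.ringOfIntegersEquiv.injective
  rw [map_intCast]
  simp

theorem rod_mem (q : ℕ) (t : ℕ) (n : ℤ) :
    (n : 𝓞 ℚ) ∈ (Ideal.span {((q : ℕ) : 𝓞 ℚ)}) ^ t ↔ (q : ℤ) ^ t ∣ n := by
  rw [Ideal.span_singleton_pow, Ideal.mem_span_singleton]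
  constructor
  · rintro ⟨z, hz⟩
    obtain ⟨k, rfl⟩ := rod_int z
    refine ⟨k, ?_⟩
    have h := congrArg Rat.ringOfIntegersEquiv hz
    simpa using h
  · rintro ⟨k, hk⟩
    refine ⟨(k : 𝓞 ℚ), ?_⟩
    rw [hk]
    push_cast
    rfl

theorem rod_mem1 (q : ℕ) (n : ℤ) :
    (n : 𝓞 ℚ) ∈ Ideal.span {((q : ℕ) : 𝓞 ℚ)} ↔ (q : ℤ) ∣ n := by
  have h := rod_mem q 1 n
  rwa [pow_one, pow_one] at h

theorem rod_cast (n : ℤ) : (((n : 𝓞 ℚ) : 𝓞 ℚ) : ℚ) = (n : ℚ) := map_intCast _ n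

/-- the criterion -/
theorem rod_dv (q : ℕ) (t : ℕ) (x : ℚ) (a b : ℤ) (hb : ¬ (q : ℤ) ∣ b) (ha : (q : ℤ) ^ t ∣ a)
    (h : x * b = a) : Dv (Ideal.span {((q : ℕ) : 𝓞 ℚ)}) t x := by
  refine ⟨(a : 𝓞 ℚ), (b : 𝓞 ℚ), ?_, (rod_mem q t a).2 ha, ?_⟩
  · rw [rod_mem1]
    exact hb
  · rw [rod_cast, rod_cast]
    exact h

theorem rod_res (q : ℕ) (hq : q.Prime) (r : ℚ) (hr : Dv (Ideal.span {((q : ℕ) : 𝓞 ℚ)}) 0 r) :
    ∃ c0 : ℕ, Dv (Ideal.span {((q : ℕ) : 𝓞 ℚ)}) 1 (r - c0) := by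
  obtain ⟨a, b, hb, -, hab⟩ := hr
  obtain ⟨a, rfl⟩ := rod_int a
  obtain ⟨b, rfl⟩ := rod_int b
  rw [rod_mem1] at hb
  rw [rod_cast, rod_cast] at hab
  have : Fact q.Prime := ⟨hq⟩
  have hb' : (b : ZMod q) ≠ 0 := by
    rw [Ne, ZMod.intCast_zmod_eq_zero_iff_dvd]
    exact hb
  refine ⟨((a : ZMod q) * (b : ZMod q)⁻¹).val, ?_⟩
  refine rod_dv q 1 _ (a - ((((a : ZMod q) * (b : ZMod q)⁻¹).val : ℕ) : ℤ) * b) b hb ?_ ?_
  · rw [pow_one, ← ZMod.intCast_zmod_eq_zero_iff_dvd]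
    push_cast
    rw [ZMod.natCast_val, ZMod.cast_id', id, mul_assoc, inv_mul_cancel₀ hb', mul_one, sub_self]
  · push_cast
    rw [sub_mul, hab]

theorem rod_prime (q : ℕ) (hq : q.Prime) : (Ideal.span {((q : ℕ) : 𝓞 ℚ)}).IsPrime := by
  have h0 : ((q : ℕ) : 𝓞 ℚ) ≠ 0 := by exact_mod_cast hq.ne_zero
  rw [Ideal.span_singleton_prime h0]
  rw [← MulEquiv.prime_iff (Rat.ringOfIntegersEquiv : 𝓞 ℚ ≃* ℤ)]
  have h1 : (Rat.ringOfIntegersEquiv : 𝓞 ℚ ≃* ℤ) ((q : ℕ) : 𝓞 ℚ) = (q : ℤ) := by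
    exact map_natCast Rat.ringOfIntegersEquiv q
  rw [h1]
  exact Nat.prime_iff_prime_int.1 hq

theorem rod_bot (q : ℕ) (hq : q.Prime) : Ideal.span {((q : ℕ) : 𝓞 ℚ)} ≠ ⊥ := by
  rw [Ne, Ideal.span_singleton_eq_bot]
  exact_mod_cast hq.ne_zero

theorem rod_lat (q : ℕ) (hq : q.Prime) (m : ℕ) (p : Fin m → ℕ) (hp : ∀ j, (p j).Prime)
    (hpq : ∀ j, p j ≠ q) (jj : ℕ) :
    ∃ Λ : AddSubgroup (Fin m → ℤ), Λ.index ≠ 0 ∧ Λ.index ≤ q ^ jj ∧
      ∀ x ∈ Λ, Dv (Ideal.span {((q : ℕ) : 𝓞 ℚ)}) jj (∏ j, (p j : ℚ) ^ (x j) - 1) := by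
  have hqj : 0 < q ^ jj := pow_pos hq.pos jj
  have : NeZero (q ^ jj) := ⟨hqj.ne'⟩
  have hcop : ∀ j, (p j).Coprime (q ^ jj) := fun j =>
    Nat.Coprime.pow_right jj ((Nat.coprime_primes (hp j) hq).2 (hpq j))
  obtain ⟨u, hu⟩ : ∃ u : Fin m → (ZMod (q ^ jj))ˣ, ∀ j, ((u j : (ZMod (q ^ jj))ˣ) :
      ZMod (q ^ jj)) = (p j : ZMod (q ^ jj)) :=
    ⟨fun j => ZMod.unitOfCoprime (p j) (hcop j), fun j => ZMod.coe_unitOfCoprime _ _⟩
  obtain ⟨f, hf⟩ : ∃ f : (Fin m → ℤ) →+ Additive (ZMod (q ^ jj))ˣ,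
      ∀ x, f x = Additive.ofMul (∏ j, u j ^ (x j)) :=
    ⟨{ toFun := fun x => Additive.ofMul (∏ j, u j ^ (x j))
       map_zero' := by simp
       map_add' := fun x y => by
        rw [← ofMul_mul, ← Finset.prod_mul_distrib]
        congr 1
        exact Finset.prod_congr rfl fun j _ => by rw [Pi.add_apply, zpow_add] }, fun _ => rfl⟩
  refine ⟨f.ker, ?_, ?_, ?_⟩
  · rw [AddSubgroup.index_ker]
    exact Nat.card_pos.ne'
  · rw [AddSubgroup.index_ker]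
    calc Nat.card f.range ≤ Nat.card (Additive (ZMod (q ^ jj))ˣ) :=
          Nat.card_le_card_of_injective _ Subtype.val_injective
      _ = Nat.card (ZMod (q ^ jj))ˣ := Nat.card_congr Additive.toMul
      _ = (q ^ jj).totient := by rw [Nat.card_eq_fintype_card, ZMod.card_units_eq_totient]
      _ ≤ q ^ jj := Nat.totient_le _
  · intro x hx
    rw [AddMonoidHom.mem_ker, hf] at hx
    have hx1 : ∏ j, u j ^ (x j) = 1 := by
      have h := congrArg Additive.toMul hx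
      simpa using h
    obtain ⟨N, hN⟩ : ∃ N : ℕ, N = ∏ j, p j ^ (x j).toNat := ⟨_, rfl⟩
    obtain ⟨M, hM⟩ : ∃ M : ℕ, M = ∏ j, p j ^ (-(x j)).toNat := ⟨_, rfl⟩
    have hMN : (N : ZMod (q ^ jj)) = (M : ZMod (q ^ jj)) := by
      have h1 : ∏ j, u j ^ (x j).toNat = ∏ j, u j ^ (-(x j)).toNat := by
        have h2 : (∏ j, u j ^ (x j).toNat) * (∏ j, u j ^ (-(x j)).toNat)⁻¹ = 1 := by
          rw [← hx1, ← Finset.prod_inv_distrib, ← Finset.prod_mul_distrib]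
          refine Finset.prod_congr rfl fun j _ => ?_
          rw [← zpow_natCast, ← zpow_natCast, ← zpow_neg, ← zpow_add]
          congr 1
          omega
        rwa [mul_inv_eq_one] at h2
      have h3 := congrArg (fun w : (ZMod (q ^ jj))ˣ => (w : ZMod (q ^ jj))) h1
      simp only [Units.coe_prod, Units.val_pow_eq_pow_val, hu] at h3
      rw [hN, hM]
      push_cast
      exact h3
    have hMq : ¬ (q : ℤ) ∣ (M : ℤ) := by
      rw [Int.natCast_dvd_natCast, hM, Prime.dvd_finsetProd_iff hq.prime]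
      rintro ⟨j, -, hj⟩
      have h1 := hq.dvd_of_dvd_pow hj
      exact hpq j ((Nat.prime_dvd_prime_iff_eq hq (hp j)).1 h1).symm
    have hM0 : (M : ℚ) ≠ 0 := by
      intro h
      apply hMq
      have : M = 0 := by exact_mod_cast h
      rw [this]
      simp
    refine rod_dv q jj _ ((N : ℤ) - M) M hMq ?_ ?_
    · have h1 : ((q ^ jj : ℕ) : ℤ) ∣ (N : ℤ) - M := by
        rw [← ZMod.intCast_zmod_eq_zero_iff_dvd]
        push_cast
        rw [hMN, sub_self]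
      simpa using h1
    · have h1 : (∏ j, (p j : ℚ) ^ (x j)) * M = N := by
        rw [hN, hM]
        push_cast
        rw [← Finset.prod_mul_distrib]
        refine Finset.prod_congr rfl fun j _ => ?_
        have hpj : (p j : ℚ) ≠ 0 := by exact_mod_cast (hp j).ne_zero
        rw [← zpow_natCast, ← zpow_natCast, ← zpow_add₀ hpj]
        congr 1
        omega
      push_cast
      rw [sub_mul, h1, one_mul]

theorem st_ROD (h1 : ST_DVB) (hval : ST_VAL) (hB : ST_ODB) : ST_ROD := by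
  intro q hq
  obtain ⟨Q, hQ⟩ : ∃ Q : Ideal (𝓞 ℚ), Q = Ideal.span {((q : ℕ) : 𝓞 ℚ)} := ⟨_, rfl⟩
  have hP : Q.IsPrime := by rw [hQ]; exact rod_prime q hq
  have hb : Q ≠ ⊥ := by rw [hQ]; exact rod_bot q hq
  have hm : ((q : ℕ) : 𝓞 ℚ) ∈ Q := by rw [hQ]; exact Ideal.mem_span_singleton_self _
  refine ⟨Q, hP, hb, hm, ?_, ?_, ?_⟩
  · intro T x hT hx
    rw [hQ]
    refine rod_dv q T (x - 1) (x - 1).num ((x - 1).den : ℤ) ?_ hx ?_
    · intro hcon
      have h2 : (q : ℤ) ∣ (x - 1).num := (dvd_pow_self (q : ℤ) (by omega)).trans hx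
      have h3 : q ∣ (x - 1).num.natAbs := Int.natCast_dvd.1 h2
      have h4 : q ∣ (x - 1).den := Int.natCast_dvd_natCast.1 hcon
      have h5 := Nat.dvd_gcd h3 h4
      rw [(x - 1).reduced] at h5
      exact hq.one_lt.ne' (Nat.dvd_one.1 h5)
    · push_cast
      exact Rat.mul_den_eq_num (x - 1)
  · intro n jj s hjj hs T
    obtain ⟨vQ, hvQ⟩ := hval ℚ Q hP hb
    obtain ⟨d0, dmono, dadd, dneg, dmul, done, dzpow, dmul1, _⟩ := h1 ℚ Q hP hb
    have hq0 : ((q : ℕ) : ℚ) ≠ 0 := by exact_mod_cast hq.ne_zero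
    have hDq : Dv Q 1 ((q : ℕ) : ℚ) := by
      rw [hQ]
      refine rod_dv q 1 _ (q : ℤ) 1 ?_ (by rw [pow_one]) (by push_cast; ring)
      intro h
      have h2 : (q : ℤ) = 1 := by
        have := Int.eq_one_of_dvd_one (by positivity) h
        exact this
      exact hq.one_lt.ne' (by exact_mod_cast h2)
    have hDq2 : ¬ Dv Q 2 ((q : ℕ) : ℚ) := by
      intro h
      have h2 := (h1 ℚ Q hP hb).2.2.2.2.2.2.2.2 2 ((q : ℤ) : 𝓞 ℚ)
        (by rw [rod_cast]; exact_mod_cast h)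
      rw [hQ, rod_mem] at h2
      have h3 : (q ^ 2 : ℕ) ∣ q := by exact_mod_cast h2
      have h4 := Nat.le_of_dvd hq.pos h3
      nlinarith [hq.two_le]
    have hvq : ∀ y : ℚˣ, (y : ℚ) = (q : ℚ) → vQ y = 1 := by
      intro y hy
      have h2 := (hvQ.dv 1 y).1 (by rw [hy]; exact hDq)
      have h3 : ¬ ((2 : ℕ) : ℤ) ≤ vQ y := fun h => hDq2 (by rw [← hy]; exact (hvQ.dv 2 y).2 h)
      push_cast at h2 h3
      omega
    have hs0 : ∀ i, s i ≠ 0 := fun i => (done _ (dmono 1 jj _ hjj (hs i))).1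
    have hs1 : ∀ i, ∀ k : ℕ, Dv Q 1 (s i ^ k - 1) := fun i k => by
      have := dzpow 1 (s i) (k : ℤ) le_rfl (dmono 1 jj _ hjj (hs i))
      simpa using this
    obtain ⟨a0, ha0, hEa, hx12⟩ : ∃ a0 : ℕ, 1 ≤ a0 ∧ 1 < (q - 1) * a0 ∧
        ∀ i, Dv Q a0 (s i ^ 12 - 1) := by
      rcases eq_or_ne q 2 with h2 | h2
      · refine ⟨2, by norm_num, by rw [h2]; norm_num, ?_⟩
        intro i
        have hD2 : Dv Q 1 (2 : ℚ) := by rw [h2] at hDq; simpa using hDq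
        have h3 := hs1 i 6
        have e1 : s i ^ 12 - 1 = (s i ^ 6 - 1) * ((s i ^ 6 - 1) + 2) := by ring
        rw [e1]
        exact dmul 1 1 _ _ h3 (dadd _ _ _ h3 hD2)
      · refine ⟨1, le_rfl, ?_, fun i => hs1 i 12⟩
        have := hq.two_le
        omega
    have hfun : (fun i => s i ^ 12) = fun i => ((Units.mk0 (s i) (hs0 i) ^ 12 : ℚˣ) : ℚ) := by
      funext i
      rw [Units.val_pow_eq_pow_val, Units.val_mk0]
    rw [hfun]
    refine od3_core h1 Q hP hb vQ hvQ q 1 a0 ha0 ⊤ ?_ ?_ n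
      (fun i => Units.mk0 (s i) (hs0 i) ^ 12) (fun i => Subgroup.mem_top _) ?_ jj ?_ T
    · intro x a' ha' hx j c0
      exact hB ℚ Q hP hb q hq 1 a' le_rfl
        (lt_of_lt_of_le hEa (Nat.mul_le_mul_left _ ha')) hDq x hx j c0
    · intro φ _ u _ x x' _ _ h5 h6
      obtain ⟨j, hj⟩ : ∃ j : ℕ, vQ x = vQ x' + j :=
        ⟨(vQ x - vQ x').toNat, by rw [Int.toNat_of_nonneg (by omega)]; ring⟩
      have hvone : vQ 1 = 0 := by
        have := hvQ.mul 1 1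
        rw [mul_one] at this
        omega
      have hvinv : ∀ y : ℚˣ, vQ y⁻¹ = - vQ y := by
        intro y
        have := hvQ.mul y y⁻¹
        rw [mul_inv_cancel, hvone] at this
        omega
      have hvpow : ∀ (y : ℚˣ) (k : ℕ), vQ (y ^ k) = k * vQ y := by
        intro y k
        induction k with
        | zero => rw [pow_zero, hvone]; simp
        | succ k ih => rw [pow_succ, hvQ.mul, ih]; push_cast; ring
      obtain ⟨qq, hqq⟩ : ∃ qq : ℚˣ, (qq : ℚ) = (q : ℚ) := ⟨Units.mk0 _ hq0, rfl⟩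
      have hvqq := hvq qq hqq
      obtain ⟨r, hr⟩ : ∃ r : ℚˣ, r = x * (qq ^ j * x')⁻¹ := ⟨_, rfl⟩
      have hvr : vQ r = 0 := by
        rw [hr, hvQ.mul, hvinv, hvQ.mul, hvpow, hvqq, hj]
        ring
      have hr0 : Dv Q 0 (r : ℚ) := (hvQ.dv 0 r).2 (by rw [hvr]; norm_num)
      obtain ⟨c0, hc0⟩ : ∃ c0 : ℕ, Dv Q 1 ((r : ℚ) - c0) := by
        rw [hQ] at hr0 ⊢
        exact rod_res q hq r hr0
      refine ⟨j, c0, by rw [hj]; push_cast; ring, ?_⟩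
      have hx : (x : ℚ) = (r : ℚ) * ((q : ℚ) ^ j * (x' : ℚ)) := by
        have h7 : x = r * (qq ^ j * x') := by rw [hr, inv_mul_cancel_right]
        have h8 := congrArg (fun w : ℚˣ => (w : ℚ)) h7
        simp only [Units.val_mul, Units.val_pow_eq_pow_val, hqq] at h8
        exact h8
      have hx1 : (x : ℚ) - ((c0 * q ^ j : ℕ) : ℚ) * (x' : ℚ) =
          ((r : ℚ) - c0) * ((q : ℚ) ^ j * (x' : ℚ)) := by
        rw [hx]
        push_cast
        ring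
      rw [hx1]
      have h7 : Dv Q (vQ x).toNat ((q : ℚ) ^ j * (x' : ℚ)) := by
        have h8 := (hvQ.dv (vQ x).toNat (qq ^ j * x')).2 (by
          rw [hvQ.mul, hvpow, hvqq, Int.toNat_of_nonneg (by omega), hj]
          linarith)
        simpa only [Units.val_mul, Units.val_pow_eq_pow_val, hqq] using h8
      have h8 := dmul 1 (vQ x).toNat _ _ hc0 h7
      rw [add_comm] at h8
      exact h8
    · intro i
      rw [Units.val_pow_eq_pow_val, Units.val_mk0]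
      exact hx12 i
    · intro i
      have h5 := dzpow jj _ (12 : ℤ) hjj (hs i)
      rw [Units.val_pow_eq_pow_val, Units.val_mk0]
      exact_mod_cast h5
  · intro m p hp hpq jj _
    obtain ⟨Λ, h2, h3, h4⟩ := rod_lat q hq m p hp hpq jj
    refine ⟨Λ, h2, h3, ?_⟩
    rw [hQ]
    exact h4

end Pool.Helper99.SZ
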