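import Pool.Agent.Helper99.SZ.Stmts

/-!
# The discriminant of an elliptic curve: size of the conjugates
-/

set_option autoImplicit false

namespace Pool.Helper99.SZ

open NumberField

/-- `r ‖I - z‖ ^ 2 = D` bounds `r` from both sides -/
lemma siz_real (z I : ℂ) (i D : ℝ) (hI : ‖I‖ = i) (hD : 1 ≤ D) (h : ‖z‖ * ‖I - z‖ ^ 2 = D) :
    |Real.log ‖z‖| ≤ 4 * (1 + Real.log (1 + i) + Real.log D) := by
  have hi : 0 ≤ i := hI ▸ norm_nonneg I
  have hr : 0 ≤ ‖z‖ := norm_nonneg z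
  set M : ℝ := i + 1 + D with hM
  have hM1 : 1 ≤ M := by rw [hM]; linarith
  have hup : ‖z‖ ≤ M := by
    by_contra hc
    push Not at hc
    have h1 : 1 ≤ ‖I - z‖ := by
      have : ‖z‖ - ‖I‖ ≤ ‖I - z‖ := by
        rw [norm_sub_rev]
        exact norm_sub_norm_le z I
      rw [hI] at this
      linarith
    have h2 : ‖z‖ ≤ D := by
      rw [← h]
      have : (1 : ℝ) ≤ ‖I - z‖ ^ 2 := one_le_pow₀ h1
      nlinarith
    linarith
  have hdiff : ‖I - z‖ ≤ 2 * M := by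
    have := norm_sub_le I z
    rw [hI] at this
    linarith
  have hzpos : 0 < ‖z‖ := by
    rcases hr.lt_or_eq with h1 | h1
    · exact h1
    · rw [← h1, zero_mul] at h
      linarith
  have hlow : 1 ≤ ‖z‖ * (4 * M ^ 2) := by
    have h1 : ‖I - z‖ ^ 2 ≤ (2 * M) ^ 2 := pow_le_pow_left₀ (norm_nonneg _) hdiff 2
    calc (1 : ℝ) ≤ D := hD
      _ = ‖z‖ * ‖I - z‖ ^ 2 := h.symm
      _ ≤ ‖z‖ * (2 * M) ^ 2 := mul_le_mul_of_nonneg_left h1 hr
      _ = _ := by ring
  have hlogM : Real.log M ≤ Real.log 2 + Real.log (1 + i) + Real.log D := by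
    rw [← Real.log_mul (by norm_num) (by linarith), ← Real.log_mul (by positivity) (by linarith)]
    apply Real.log_le_log (by linarith)
    rw [hM]
    nlinarith
  have hlogM0 : 0 ≤ Real.log M := Real.log_nonneg hM1
  have hl2 : Real.log 2 ≤ 1 := by
    have := Real.log_two_lt_d9
    linarith
  have hi0 : 0 ≤ Real.log (1 + i) := Real.log_nonneg (by linarith)
  have hD0 : 0 ≤ Real.log D := Real.log_nonneg hD
  rw [abs_le]
  constructor
  · have h1 : Real.log 1 ≤ Real.log (‖z‖ * (4 * M ^ 2)) := Real.log_le_log (by norm_num) hlow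
    rw [Real.log_one, Real.log_mul hzpos.ne' (by positivity), Real.log_mul (by norm_num)
      (by positivity), Real.log_pow, show (4 : ℝ) = 2 ^ 2 by norm_num, Real.log_pow] at h1
    push_cast at h1
    linarith
  · have h1 : Real.log ‖z‖ ≤ Real.log M := Real.log_le_log hzpos hup
    linarith

theorem st_SIZ (h1 : ST_CU1) : ST_SIZ := by
  refine ⟨4, by norm_num, ?_⟩
  intro K _ _ β a b c κ hC σ _ i
  obtain ⟨e1, e2, _, e4, _, _⟩ := h1.2 K β a b c κ hC
  have e3 : (κ : K) * (((a ^ 2 - 3 * b : ℤ) : K) - (κ : K)) ^ 2 = ((dis a b c : ℤ) : K) := by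
    have h2 : ((a ^ 2 - 3 * b : ℤ) : K) - (κ : K) = 3 * β ^ 2 + 2 * a * β + b := by
      have h3 : (κ : K) + (3 * β ^ 2 + 2 * a * β + b) = ((a ^ 2 - 3 * b : ℤ) : K) := by
        exact_mod_cast e2
      rw [← h3]
      ring
    rw [h2]
    exact_mod_cast e1
  have e5 : σ i (κ : K) * (((a ^ 2 - 3 * b : ℤ) : ℂ) - σ i (κ : K)) ^ 2 =
      ((dis a b c : ℤ) : ℂ) := by
    have := congrArg (σ i) e3
    rw [map_mul, map_pow, map_sub, map_intCast, map_intCast] at this
    exact this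
  have e6 : ‖σ i (κ : K)‖ * ‖((a ^ 2 - 3 * b : ℤ) : ℂ) - σ i (κ : K)‖ ^ 2 =
      |((dis a b c : ℤ) : ℝ)| := by
    rw [← norm_pow, ← norm_mul, e5, Complex.norm_intCast]
  have hD : (1 : ℝ) ≤ |((dis a b c : ℤ) : ℝ)| := by
    have : (1 : ℤ) ≤ |dis a b c| := Int.one_le_abs e4
    exact_mod_cast this
  exact siz_real _ _ _ _ (Complex.norm_intCast _) hD e6

end Pool.Helper99.SZ
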